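import Pool.Agent.H19.Chv.Final

/-!
# MP_e87df5_co: the Fourier-weighted flow for antipodal monotone functions

For every nondecreasing antipodal `f` the function `∑ i, λ_i χ_i` flows to `max(f, 0)^2`.

## The proof

Points of the cube are the subsets of `[n]`, `χ_S` are the characters, `f^(S)` the Fourier
coefficients, `B + T` is the symmetric difference, `I` is a decreasing family, `I_i` its members
containing `i`. Let `v` be any nondecreasing real function.

Theorem. `∑_{y ∈ I} (v_+(y)^2 + v_-(yᶜ)^2) ≤ ∑_T v^(T)^2 * #{B ∈ I : B + T ∈ I}`.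

For `i ∈ T` exactly one of `B`, `B + T` contains `i`, so `#{B ∈ I : B + T ∈ I} ≤ 2 |I_i|`. For
`v = f` antipodal, `v_-(yᶜ) = f_+(y)` and `f^(∅) = 0`, so the theorem gives
`2 ∑_I f^* ≤ 2 ∑_i λ_i |I_i| = 2 ∑_I f~`, which is the claim by max-flow min-cut.

Proof of the theorem. Let `H` be the span of the `χ_S` with `Sᶜ ∈ I`.

(1) Let `c` be real and `A = {v ≥ c}`. The space of the `h` in `H` supported on `A` has dimension at
least `|A ∩ I|`. The conditions on a function `h` supported on `A` are that it is orthogonal to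
`χ_S` for all `S` with `Sᶜ ∉ I`. These `S` form a decreasing family, so the conditions say that
`h` is orthogonal to the functions `t_S(Y) = [Y ⊆ Sᶜ]` for the same `S`. As `A` is increasing,
`t_S` vanishes on `A` unless `Sᶜ ∈ A`, so there are at most `|A \ I|` conditions. (Explicitly, the
functions `h_B(Y) = (-1)^|Y| [B ⊆ Y]`, `B ∈ A ∩ I`, are in the space.)

(2) Going through the `y ∈ I` with `v(y) > 0` in the order of decreasing `v(y)`, (1) gives orthonormal
`h_y ∈ H`, `h_y` supported on `{v ≥ v(y)}`, so `E[v h_y^2] ≥ v(y) > 0`. The same for the nondecreasing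
function `Y ↦ -v(Yᶜ)`, followed by the reflection `Y ↦ Yᶜ` (which preserves `H`), gives for the
`y ∈ I` with `v(yᶜ) < 0` orthonormal functions `g_y ∈ H`, supported on `{v ≤ v(yᶜ)}`, so
`E[v g_y^2] ≤ v(yᶜ) < 0`. The `h` and the `g` are orthogonal to each other, as their supports are disjoint.

(3) For orthonormal functions `h_j` in `H` with Fourier coefficients `c_j(S)`, the rank one tensors
`c_j(S) c_j(S')` are orthonormal, and `E[v h_j^2] = ∑_{S, S'} v^(S + S') c_j(S) c_j(S')`. Bessel's
inequality gives `∑_j (E[v h_j^2])^2 ≤ ∑ v^(S + S')^2`, the sum over `S, S'` with `Sᶜ, S'ᶜ ∈ I`, and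
this is `∑_T v^(T)^2 * #{B ∈ I : B + T ∈ I}`, the square of the Hilbert-Schmidt norm of the
compression to `H` of the multiplication by `v`. With (2) this is the theorem.

For `f = 2 * 1_F - 1`, `F` a maximal intersecting family, this is Chvatal's conjecture:
`2 |F ∩ I| ≤ ∑_T f^(T)^2 * #{B ∈ I : B + T ∈ I} ≤ 2 max_i |I_i|`.
-/

set_option autoImplicit false

namespace Pool.Agent.Results.MP_e87df5_co.AntipodalFlow

open Pool.Agent.H60.Flow

theorem result : ∀ (n : ℕ) (f : Finset (Fin n) → ℝ), Monotone f → Antip f → Flows (til f) (sqp f) :=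
  fun _ f hf ha => Pool.Agent.H19.Chv.fourierFlow f hf ha

end Pool.Agent.Results.MP_e87df5_co.AntipodalFlow
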